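import Pool.Agent.Helper9.RW.Cls
import Pool.Graph.R_pool_sql_team_seeded_620a6dc7.helper213_IG_.RF1
import Mathlib.Algebra.Free
import Mathlib.Algebra.Group.WithOne.Basic

set_option autoImplicit false

/-!
# For `n ≥ 5` the free idempotent-generated semigroup `IG(E(P_n))` has no finite complete rewriting system
-/

namespace Pool.Agent.Results.MP_e3ace9_al.NoFiniteCompleteSystem

/-! ### The semigroup -/

/-- A relation on the `2n` points `[n] ∪ [n]'`: the point `(false, i)` is `i` (upper row) and
`(true, i)` is `i'` (lower row). -/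
abbrev Rl (n : ℕ) : Type := Bool × Fin n → Bool × Fin n → Prop

/-- The points of `α` placed in rows `0` and `1` of the three row picture. -/
def upperPt {n : ℕ} (p : Bool × Fin n) : Fin 3 × Fin n := (if p.1 = true then 1 else 0, p.2)

/-- The points of `β` placed in rows `1` and `2` of the three row picture. -/
def lowerPt {n : ℕ} (p : Bool × Fin n) : Fin 3 × Fin n := (if p.1 = true then 2 else 1, p.2)

/-- The points of the product placed in the outer rows `0` and `2`. -/
def outerPt {n : ℕ} (p : Bool × Fin n) : Fin 3 × Fin n := (if p.1 = true then 2 else 0, p.2)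

/-- Adjacency in the combined three row graph of `α` (on rows `0,1`) and `β` (on rows `1,2`). -/
def Adj {n : ℕ} (α β : Rl n) (x y : Fin 3 × Fin n) : Prop :=
  (∃ p q, α p q ∧ x = upperPt p ∧ y = upperPt q) ∨ (∃ p q, β p q ∧ x = lowerPt p ∧ y = lowerPt q)

/-- The product in the partition monoid: two outer points are related when they are connected in
the combined graph. -/
def pmul {n : ℕ} (α β : Rl n) : Rl n := fun p q => Relation.EqvGen (Adj α β) (outerPt p) (outerPt q)

/-- The idempotents of the partition monoid `P_n`: the set partitions (equivalence relations) `α` of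
`[n] ∪ [n]'` with `α α = α`. -/
def EP (n : ℕ) : Type := {α : Rl n // Equivalence α ∧ pmul α α = α}

/-- `(e, f)` is a basic pair: `ef` or `fe` is one of `e`, `f`. -/
def BasicPair {n : ℕ} (e f : EP n) : Prop :=
  pmul e.1 f.1 = e.1 ∨ pmul e.1 f.1 = f.1 ∨ pmul f.1 e.1 = e.1 ∨ pmul f.1 e.1 = f.1

/-- The defining relations `x_e x_f = x_{ef}` of `IG(E(P_n))`, for basic pairs `(e, f)`. -/
inductive DefRel (n : ℕ) : FreeSemigroup (EP n) → FreeSemigroup (EP n) → Prop
  | mk (e f g : EP n) (hb : BasicPair e f) (hg : pmul e.1 f.1 = g.1) :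
      DefRel n (FreeSemigroup.of e * FreeSemigroup.of f) (FreeSemigroup.of g)

/-- The free idempotent-generated semigroup `IG(E(P_n))`. -/
def IGP (n : ℕ) : Type := (conGen (DefRel n)).Quotient

instance (n : ℕ) : Semigroup (IGP n) := inferInstanceAs (Semigroup (conGen (DefRel n)).Quotient)

/-! ### Rewriting systems -/

/-- The letters of a word of `A⁺`. -/
def letters {A : Type} (w : FreeSemigroup A) : List A := w.head :: w.tail

/-- One rewriting step over `A⁺`: `s l t → s r t` for a rule `l → r` of `R` and words `s, t ∈ A*`. -/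
def RStep {A : Type} (R : Set (FreeSemigroup A × FreeSemigroup A)) (u v : FreeSemigroup A) : Prop :=
  ∃ (s t : List A) (l r : FreeSemigroup A), (l, r) ∈ R ∧ letters u = s ++ letters l ++ t ∧
    letters v = s ++ letters r ++ t

/-- There is no infinite sequence of rewriting steps. -/
def Terminating {A : Type} (R : Set (FreeSemigroup A × FreeSemigroup A)) : Prop :=
  WellFounded (fun v u : FreeSemigroup A => RStep R u v)

/-- Words with a common ancestor have a common descendant. -/
def Confluent {A : Type} (R : Set (FreeSemigroup A × FreeSemigroup A)) : Prop :=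
  ∀ u v w, Relation.ReflTransGen (RStep R) u v → Relation.ReflTransGen (RStep R) u w →
    ∃ z, Relation.ReflTransGen (RStep R) v z ∧ Relation.ReflTransGen (RStep R) w z

/-- The semigroup `S` admits a finite complete rewriting system: there are a finite alphabet `A`, letters
interpreted by elements of `S` that generate `S`, and a finite terminating and confluent set `R` of rules
`l → r` (`l, r ∈ A⁺`) such that two words have the same value in `S` exactly when they are equivalent
modulo `R`. -/
def HasFiniteCompleteSystem (S : Type) [Semigroup S] : Prop :=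
  ∃ (A : Type) (_ : Finite A) (g : A → S) (R : Set (FreeSemigroup A × FreeSemigroup A)),
    R.Finite ∧ Terminating R ∧ Confluent R ∧ (∀ x : S, ∃ w, FreeSemigroup.lift g w = x) ∧
    ∀ u v, FreeSemigroup.lift g u = FreeSemigroup.lift g v ↔ Relation.EqvGen (RStep R) u v

section Bridge

open Pool.Agent.H213

variable {n : ℕ}

theorem pmul_eq (α β : Rl n) : pmul α β = PM.mulr α β := by
  have h : Adj α β = PM.gen α β := by
    funext x y
    rfl
  funext p q
  unfold pmul PM.mulr
  rw [h]
  rfl

/-- the idempotent of `PM n` given by an element of `EP n` -/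
def toId (e : EP n) : Idem (PM n) := ⟨⟨e.1, e.2.1⟩, PM.ext (by
  rw [PM.mul_r]
  exact (pmul_eq _ _).symm.trans e.2.2)⟩

theorem toId_r (e : EP n) : (toId e : PM n).r = e.1 := rfl

theorem toId_mul_r (e f : EP n) : ((toId e : PM n) * (toId f : PM n)).r = pmul e.1 f.1 := by
  rw [PM.mul_r, pmul_eq]
  rfl

/-- the inverse -/
def ofId (e : Idem (PM n)) : EP n := ⟨(e : PM n).r, (e : PM n).eqv, by
  rw [pmul_eq, ← PM.mul_r]
  exact congrArg PM.r e.2⟩

theorem ofId_toId (e : EP n) : ofId (toId e) = e := rfl

theorem toId_ofId (e : Idem (PM n)) : toId (ofId e) = e := rfl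

theorem mul_toId_iff (e f g : EP n) : (toId e : PM n) * (toId f : PM n) = toId g ↔ pmul e.1 f.1 = g.1 := by
  constructor
  · intro h
    have := congrArg PM.r h
    rwa [toId_mul_r] at this
  · intro h
    apply PM.ext
    rw [toId_mul_r]
    exact h

theorem basic_iff (e f : EP n) : Basic (toId e : PM n) (toId f : PM n) ↔ BasicPair e f := by
  unfold Basic BasicPair
  rw [mul_toId_iff, mul_toId_iff, mul_toId_iff, mul_toId_iff]

/-- the canonical map from words to the monoid `IG (PM n)` -/
def wmap : FreeSemigroup (EP n) →ₙ* IG (PM n) := FreeSemigroup.lift (fun e => io (toId e))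

theorem conGen_le_ker : conGen (DefRel n) ≤ Con.ker (wmap (n := n)) := by
  rw [Con.conGen_le]
  intro x y h
  cases h with
  | mk e f g hb hg =>
    rw [Con.ker_rel]
    rw [map_mul]
    unfold wmap
    rw [FreeSemigroup.lift_of, FreeSemigroup.lift_of, FreeSemigroup.lift_of]
    exact io_mul ((basic_iff e f).2 hb) ((mul_toId_iff e f g).2 hg)

/-- the canonical map `IG(E(P_n)) → IG (PM n)` -/
def fwd : IGP n →ₙ* IG (PM n) where
  toFun := fun x => Quotient.lift (s := (conGen (DefRel n)).toSetoid) (fun w => wmap w)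
    (fun a b h => conGen_le_ker h) x
  map_mul' := by
    intro x y
    induction x using Quotient.inductionOn
    induction y using Quotient.inductionOn
    exact map_mul wmap _ _

/-- class of a word -/
def cl (w : FreeSemigroup (EP n)) : IGP n := Quotient.mk (conGen (DefRel n)).toSetoid w

theorem cl_surj (x : IGP n) : ∃ w, cl w = x := Quotient.exists_rep x

theorem fwd_cl (w : FreeSemigroup (EP n)) : fwd (cl w) = wmap w := rfl

/-- generator of `IGP n` -/
def gn (e : EP n) : IGP n := cl (FreeSemigroup.of e)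

theorem gn_mul (e f g : EP n) (hb : BasicPair e f) (hg : pmul e.1 f.1 = g.1) : gn e * gn f = gn g :=
  Quotient.sound (s := (conGen (DefRel n)).toSetoid) (ConGen.Rel.of _ _ (DefRel.mk e f g hb hg))

/-- the map back -/
noncomputable def bwd : IG (PM n) →* WithOne (IGP n) :=
  IG.lift (fun e => ((gn (ofId e) : IGP n) : WithOne (IGP n))) (by
    intro e f g hb hg
    rw [← WithOne.coe_mul]
    congr 1
    exact gn_mul _ _ _ ((basic_iff _ _).1 hb) ((mul_toId_iff _ _ _).1 hg))

theorem bwd_wmap (w : FreeSemigroup (EP n)) : bwd (wmap w) = ((cl w : IGP n) : WithOne (IGP n)) := by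
  induction w using FreeSemigroup.recOnMul with
  | ih1 e =>
    unfold wmap bwd
    rw [FreeSemigroup.lift_of, IG.lift_io]
    rfl
  | ih2 e w h1 h2 =>
    rw [map_mul, map_mul, h1, h2]
    rfl

theorem fwd_injective : Function.Injective (fwd (n := n)) := by
  intro x y h
  obtain ⟨a, rfl⟩ := cl_surj x
  obtain ⟨b, rfl⟩ := cl_surj y
  rw [fwd_cl, fwd_cl] at h
  have := congrArg bwd h
  rw [bwd_wmap, bwd_wmap] at this
  exact WithOne.coe_injective this

theorem wmap_eq (w : FreeSemigroup (EP n)) : ∃ v : List (Idem (PM n)), v ≠ [] ∧ wmap w = mkw v := by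
  induction w using FreeSemigroup.recOnMul with
  | ih1 e =>
    refine ⟨[toId e], by simp, ?_⟩
    unfold wmap
    rw [FreeSemigroup.lift_of]
    rfl
  | ih2 e w h1 h2 =>
    obtain ⟨v1, n1, e1⟩ := h1
    obtain ⟨v2, n2, e2⟩ := h2
    refine ⟨v1 ++ v2, by simp [n1], ?_⟩
    rw [map_mul, e1, e2, mkw_append]


theorem exists_fwd {W : List (Idem (PM n))} (hW : W ≠ []) : ∃ s : IGP n, fwd s = mkw W := by
  induction W with
  | nil => exact absurd rfl hW
  | cons e W ih =>
    have h1 : fwd (gn (ofId e)) = io e := by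
      unfold gn
      rw [fwd_cl]
      unfold wmap
      rw [FreeSemigroup.lift_of, toId_ofId]
    by_cases hW' : W = []
    · subst hW'
      exact ⟨gn (ofId e), h1⟩
    · obtain ⟨s, hs⟩ := ih hW'
      exact ⟨gn (ofId e) * s, by rw [map_mul, h1, hs, mkw_cons]⟩

end Bridge

section Lists

open Relation Pool.Agent.Helper9.RW

variable {A : Type}

theorem letters_mul (x y : FreeSemigroup A) : letters (x * y) = letters x ++ letters y := rfl

theorem letters_ne (x : FreeSemigroup A) : letters x ≠ [] := by simp [letters]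

theorem exists_letters {u : List A} (h : u ≠ []) : ∃ x : FreeSemigroup A, letters x = u := by
  cases u with
  | nil => exact absurd rfl h
  | cons a u => exact ⟨⟨a, u⟩, rfl⟩

/-- the rules as pairs of lists -/
def Rl' (R : Set (FreeSemigroup A × FreeSemigroup A)) : Set (List A × List A) :=
  {x | ∃ l r, (l, r) ∈ R ∧ x = (letters l, letters r)}

variable {R : Set (FreeSemigroup A × FreeSemigroup A)}

theorem step_of {x y : FreeSemigroup A} (h : RStep R x y) : Step (Rl' R) (letters x) (letters y) := by
  obtain ⟨s, t, l, r, h1, h2, h3⟩ := h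
  exact ⟨s, letters l, letters r, t, ⟨l, r, h1, rfl⟩, h2, h3⟩

theorem of_step {u v : List A} (h : Step (Rl' R) u v) :
    ∃ x y : FreeSemigroup A, letters x = u ∧ letters y = v ∧ RStep R x y := by
  obtain ⟨s, l, r, t, ⟨l', r', h1, h4⟩, h2, h3⟩ := h
  rw [Prod.mk.injEq] at h4
  obtain ⟨rfl, rfl⟩ := h4
  have hu : u ≠ [] := by
    rw [h2]; intro h; simp [letters] at h
  have hv : v ≠ [] := by
    rw [h3]; intro h; simp [letters] at h
  obtain ⟨x, hx⟩ := exists_letters hu
  obtain ⟨y, hy⟩ := exists_letters hv
  exact ⟨x, y, hx, hy, s, t, l', r', h1, by rw [hx, h2], by rw [hy, h3]⟩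

theorem letters_inj {x y : FreeSemigroup A} (h : letters x = letters y) : x = y := by
  cases x; cases y; simp [letters] at h; obtain ⟨rfl, rfl⟩ := h; rfl

theorem wf_lists (hw : Terminating R) : WellFounded (fun v u : List A => Step (Rl' R) u v) := by
  have key : ∀ x : FreeSemigroup A, Acc (fun v u : List A => Step (Rl' R) u v) (letters x) := by
    intro x
    induction x using hw.induction with
    | _ x ih =>
      constructor
      intro v hv
      obtain ⟨x', y, hx, rfl, hxy⟩ := of_step hv
      rw [letters_inj hx] at hxy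
      exact ih y hxy
  constructor
  intro u
  constructor
  intro v hv
  obtain ⟨x', y, hx, rfl, hxy⟩ := of_step hv
  exact key y

theorem rtg_lists {x : FreeSemigroup A} {v : List A} (h : ReflTransGen (Step (Rl' R)) (letters x) v) :
    ∃ y, letters y = v ∧ ReflTransGen (RStep R) x y := by
  induction h with
  | refl => exact ⟨x, rfl, .refl⟩
  | tail _ h2 ih =>
    obtain ⟨y, rfl, h3⟩ := ih
    obtain ⟨y', z, h4, rfl, h5⟩ := of_step h2
    rw [letters_inj h4] at h5
    exact ⟨z, rfl, h3.tail h5⟩

theorem conf_lists (hc : Confluent R) (u v w : List A) (h1 : ReflTransGen (Step (Rl' R)) u v)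
    (h2 : ReflTransGen (Step (Rl' R)) u w) :
    ∃ z, ReflTransGen (Step (Rl' R)) v z ∧ ReflTransGen (Step (Rl' R)) w z := by
  rcases ReflTransGen.cases_head h1 with rfl | ⟨u1, h3, _⟩
  · exact ⟨w, h2, .refl⟩
  · obtain ⟨x, _, rfl, _, _⟩ := of_step h3
    obtain ⟨y, rfl, h5⟩ := rtg_lists h1
    obtain ⟨y', rfl, h6⟩ := rtg_lists h2
    obtain ⟨z, h7, h8⟩ := hc _ _ _ h5 h6
    exact ⟨letters z, h7.lift letters (fun _ _ h => step_of h),
      h8.lift letters (fun _ _ h => step_of h)⟩

theorem eqv_lists {x y : FreeSemigroup A} (h : EqvGen (RStep R) x y) :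
    EqvGen (Step (Rl' R)) (letters x) (letters y) := by
  induction h with
  | rel x y h => exact .rel _ _ (step_of h)
  | refl x => exact .refl _
  | symm x y _ ih => exact .symm _ _ ih
  | trans x y z _ _ ih1 ih2 => exact .trans _ _ _ ih1 ih2

end Lists

open Pool.Agent.H213 Pool.Agent.Helper9.RW in
/-- **Theorem.** For every `n ≥ 5` the free idempotent-generated semigroup `IG(E(P_n))` over the biordered
set of idempotents of the partition monoid `P_n` does not admit a finite complete rewriting system. -/
theorem result (n : ℕ) (hn : 5 ≤ n) : ¬ HasFiniteCompleteSystem (IGP n) := by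
  rintro ⟨A, hA, g, R, hfin, hw, hc, hsurj, hpres⟩
  obtain ⟨r, P, T, X, Q, hP, hT, hQ, hPT, hTQ, hgd, hX, hXT, hwin⟩ := special hn
  have hη : ∀ a, ∃ v : List (Idem (PM n)), v ≠ [] ∧ fwd (g a) = mkw v := by
    intro a
    obtain ⟨w, hw⟩ := cl_surj (g a)
    obtain ⟨v, hv, h1⟩ := wmap_eq w
    exact ⟨v, hv, by rw [← hw, fwd_cl, h1]⟩
  choose η hη1 hη2 using hη
  have ev : ∀ w : FreeSemigroup A, fwd (FreeSemigroup.lift g w) = mkw ((letters w).flatMap η) := by
    intro w
    induction w using FreeSemigroup.recOnMul with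
    | ih1 a =>
      rw [FreeSemigroup.lift_of, hη2]
      simp [letters, FreeSemigroup.of]
    | ih2 a w h1 h2 =>
      rw [map_mul, map_mul, h1, h2, letters_mul, List.flatMap_append, mkw_append]
  have hrep : ∀ W : List (Idem (PM n)), W ≠ [] → ∃ x : FreeSemigroup A, mkw ((letters x).flatMap η) = mkw W := by
    intro W hW
    obtain ⟨s, hs⟩ := exists_fwd hW
    obtain ⟨x, hx⟩ := hsurj s
    exact ⟨x, by rw [← ev, hx, hs]⟩
  have heq : ∀ x y : FreeSemigroup A, mkw ((letters x).flatMap η) = mkw ((letters y).flatMap η) →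
      Relation.EqvGen (Step (Rl' R)) (letters x) (letters y) := by
    intro x y h
    apply eqv_lists
    apply (hpres x y).1
    apply fwd_injective
    rw [ev, ev, h]
  have hR : ∀ x ∈ Rl' R, mkw (x.1.flatMap η) = mkw (x.2.flatMap η) := by
    rintro _ ⟨l, r', h, rfl⟩
    have h1 : FreeSemigroup.lift g l = FreeSemigroup.lift g r' :=
      (hpres l r').2 (.rel _ _ ⟨[], [], l, r', h, by simp, by simp⟩)
    show mkw ((letters l).flatMap η) = mkw ((letters r').flatMap η)
    rw [← ev, ← ev, h1]
  obtain ⟨L, hL⟩ : ∃ L, ∀ x ∈ Rl' R, x.1.length ≤ L := by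
    obtain ⟨L, hL⟩ := (hfin.image (fun x => (letters x.1).length)).bddAbove
    refine ⟨L, ?_⟩
    rintro _ ⟨l, r', h, rfl⟩
    exact hL ⟨(l, r'), h, rfl⟩
  obtain ⟨c, hc1, hcη⟩ : ∃ c, 1 ≤ c ∧ ∀ a, (η a).length ≤ c := by
    obtain ⟨c, hc⟩ := (Set.finite_range (fun a => (η a).length)).bddAbove
    exact ⟨c + 1, by omega, fun a => (hc ⟨a, rfl⟩).trans (by omega)⟩
  let m := c * (2 * L + 2)
  let D := mkCov (Rl' R) η r (mkw (P ++ Q m)) c L (2 * m) hR hL hc1 hcη (by omega) (hwin m)
  obtain ⟨p, hp⟩ := hrep P hP
  obtain ⟨q, hq⟩ := hrep (Q m) (hQ m)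
  obtain ⟨t, ht⟩ := hrep T hT
  have hg : gd r ((letters p).flatMap η) := (gd_congr r hp).2 hgd
  have hptm : mkw ((letters (p * t)).flatMap η) = mkw ((letters p).flatMap η) := by
    rw [letters_mul, List.flatMap_append, mkw_append, hp, ht, ← mkw_append, hPT]
  have htqm : mkw ((letters (t * q)).flatMap η) = mkw ((letters q).flatMap η) := by
    rw [letters_mul, List.flatMap_append, mkw_append, hq, ht, ← mkw_append, hTQ]
  have key := monodromy_trivial D (wf_lists hw) (conf_lists hc) (letters p) (letters q) (letters t)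
    (by
      show mkw ((letters p ++ letters q).flatMap η) = mkw (P ++ Q m)
      rw [List.flatMap_append, mkw_append, mkw_append, hp, hq])
    hg ((gd_congr r hptm).2 hg) (heq _ _ hptm) (heq _ _ htqm) (vl X)
    (by
      show vl X ∈ lab r ((letters p).flatMap η)
      rw [lab_congr r hp]; exact hX)
  apply hXT
  have e : vl ((letters t).flatMap η) = vl T := by rw [vl_eq, vl_eq, ht]
  have key' : vl X * vl ((letters t).flatMap η) = vl X := key
  rwa [e] at key'

end Pool.Agent.Results.MP_e3ace9_al.NoFiniteCompleteSystem
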